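import Mathlib

/-!
Subgroups of the symmetric group of degree 7: either four conjugates intersect trivially or the
subgroup contains all even permutations fixing some point.
-/

namespace Q20.DetGap

open Equiv Equiv.Perm

/-- the points -/
abbrev P := ZMod 7
/-- the symmetric group of degree seven -/
abbrev S := Equiv.Perm P

/-- Four conjugates of `K` intersect trivially. -/
def Good4 (K : Subgroup S) : Prop :=
  ∃ g₁ g₂ g₃ g₄ : S, ∀ k : S, g₁ * k * g₁⁻¹ ∈ K → g₂ * k * g₂⁻¹ ∈ K → g₃ * k * g₃⁻¹ ∈ K →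
    g₄ * k * g₄⁻¹ ∈ K → k = 1

/-- `K` contains all even permutations fixing `a`. -/
def Big (K : Subgroup S) : Prop := ∃ a : P, ∀ σ : S, Perm.sign σ = 1 → σ a = a → σ ∈ K

lemma Good4.conj {K : Subgroup S} (h : S) (hK : Good4 (K.map (MulAut.conj h).toMonoidHom)) :
    Good4 K := by
  obtain ⟨g₁, g₂, g₃, g₄, hg⟩ := hK
  refine ⟨h⁻¹ * g₁, h⁻¹ * g₂, h⁻¹ * g₃, h⁻¹ * g₄, ?_⟩
  intro k h1 h2 h3 h4
  refine hg k ?_ ?_ ?_ ?_
  · exact ⟨_, h1, by simp [mul_assoc]⟩
  · exact ⟨_, h2, by simp [mul_assoc]⟩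
  · exact ⟨_, h3, by simp [mul_assoc]⟩
  · exact ⟨_, h4, by simp [mul_assoc]⟩

lemma Big.conj {K : Subgroup S} (h : S) (hK : Big (K.map (MulAut.conj h).toMonoidHom)) :
    Big K := by
  obtain ⟨a, ha⟩ := hK
  refine ⟨h⁻¹ a, ?_⟩
  intro σ h1 h2
  obtain ⟨k, hk, hk'⟩ := ha (h * σ * h⁻¹) (by simp [h1])
    (by show h (σ (h⁻¹ a)) = a; rw [h2]; simp)
  have : k = σ := by
    have h3 : h * k * h⁻¹ = h * σ * h⁻¹ := hk'
    simpa using h3
  rw [← this]; exact hk

/-- `K` has no transposition and no 3-cycle. -/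
def NoSmall (K : Subgroup S) : Prop := ∀ k ∈ K, ¬ k.IsSwap ∧ ¬ k.IsThreeCycle

lemma NoSmall.eq_one {K : Subgroup S} (hK : NoSmall K) {k : S} (hk : k ∈ K) {a b c d : P}
    (hab : a ≠ b) (hac : a ≠ c) (had : a ≠ d) (hbc : b ≠ c) (hbd : b ≠ d) (hcd : c ≠ d)
    (ha : k a = a) (hb : k b = b) (hc : k c = c) (hd : k d = d) : k = 1 := by
  classical
  have h1 : k.support ⊆ (Finset.univ \ {a, b, c, d}) := by
    intro x hx
    rw [Perm.mem_support] at hx
    rw [Finset.mem_sdiff]
    refine ⟨Finset.mem_univ _, ?_⟩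
    intro h
    simp only [Finset.mem_insert, Finset.mem_singleton] at h
    rcases h with rfl | rfl | rfl | rfl
    · exact hx ha
    · exact hx hb
    · exact hx hc
    · exact hx hd
  have h2 : (Finset.univ \ {a, b, c, d} : Finset P).card = 3 := by
    rw [Finset.card_sdiff_of_subset (Finset.subset_univ _)]
    have : ({a, b, c, d} : Finset P).card = 4 := by
      rw [Finset.card_insert_of_notMem, Finset.card_insert_of_notMem,
        Finset.card_insert_of_notMem, Finset.card_singleton]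
      · simpa using hcd
      · simp [hbc, hbd]
      · simp [hab, hac, had]
    rw [this]
    rfl
  have h3 := Finset.card_le_card h1
  rw [h2] at h3
  have h4 : k.support.card ≠ 1 := Perm.card_support_ne_one k
  have h5 : k.support.card ≠ 2 := fun h => (hK k hk).1 (Perm.card_support_eq_two.mp h)
  have h6 : k.support.card ≠ 3 := fun h => (hK k hk).2 (card_support_eq_three_iff.mp h)
  have h7 : k.support.card = 0 := by omega
  rwa [Finset.card_eq_zero, Perm.support_eq_empty_iff] at h7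

lemma exists_perm2 {a b a' b' : P} (h : a ≠ b) (h' : a' ≠ b') : ∃ g : S, g a = a' ∧ g b = b' := by
  have := Equiv.Perm.isMultiplyPretransitive P 2
  have h1 : Function.Injective ![a, b] := by
    intro i j hij
    fin_cases i <;> fin_cases j <;> simp_all
  have h2 : Function.Injective ![a', b'] := by
    intro i j hij
    fin_cases i <;> fin_cases j <;> simp_all
  obtain ⟨g, hg⟩ := MulAction.exists_smul_eq S (⟨_, h1⟩ : Fin 2 ↪ P) ⟨_, h2⟩
  refine ⟨g, ?_, ?_⟩
  · have := congrArg (fun e : Fin 2 ↪ P => e 0) hg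
    simpa using this
  · have := congrArg (fun e : Fin 2 ↪ P => e 1) hg
    simpa using this

lemma exists_perm3 {a b c a' b' c' : P} (h1 : a ≠ b) (h2 : a ≠ c) (h3 : b ≠ c)
    (h1' : a' ≠ b') (h2' : a' ≠ c') (h3' : b' ≠ c') :
    ∃ g : S, g a = a' ∧ g b = b' ∧ g c = c' := by
  have := Equiv.Perm.isMultiplyPretransitive P 3
  have h4 : Function.Injective ![a, b, c] := by
    intro i j hij
    fin_cases i <;> fin_cases j <;> simp_all
  have h5 : Function.Injective ![a', b', c'] := by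
    intro i j hij
    fin_cases i <;> fin_cases j <;> simp_all
  obtain ⟨g, hg⟩ := MulAction.exists_smul_eq S (⟨_, h4⟩ : Fin 3 ↪ P) ⟨_, h5⟩
  refine ⟨g, ?_, ?_, ?_⟩
  · have := congrArg (fun e : Fin 3 ↪ P => e 0) hg
    simpa using this
  · have := congrArg (fun e : Fin 3 ↪ P => e 1) hg
    simpa using this
  · have := congrArg (fun e : Fin 3 ↪ P => e 2) hg
    simpa using this

lemma exists_perm4 {a b c d a' b' c' d' : P} (h1 : a ≠ b) (h2 : a ≠ c) (h3 : b ≠ c)
    (h4 : a ≠ d) (h5 : b ≠ d) (h6 : c ≠ d)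
    (h1' : a' ≠ b') (h2' : a' ≠ c') (h3' : b' ≠ c') (h4' : a' ≠ d') (h5' : b' ≠ d')
    (h6' : c' ≠ d') :
    ∃ g : S, g a = a' ∧ g b = b' ∧ g c = c' ∧ g d = d' := by
  have := Equiv.Perm.isMultiplyPretransitive P 4
  have h7 : Function.Injective ![a, b, c, d] := by
    intro i j hij
    fin_cases i <;> fin_cases j <;> simp_all
  have h8 : Function.Injective ![a', b', c', d'] := by
    intro i j hij
    fin_cases i <;> fin_cases j <;> simp_all
  obtain ⟨g, hg⟩ := MulAction.exists_smul_eq S (⟨_, h7⟩ : Fin 4 ↪ P) ⟨_, h8⟩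
  refine ⟨g, ?_, ?_, ?_, ?_⟩
  · have := congrArg (fun e : Fin 4 ↪ P => e 0) hg
    simpa using this
  · have := congrArg (fun e : Fin 4 ↪ P => e 1) hg
    simpa using this
  · have := congrArg (fun e : Fin 4 ↪ P => e 2) hg
    simpa using this
  · have := congrArg (fun e : Fin 4 ↪ P => e 3) hg
    simpa using this

end Q20.DetGap
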