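import Pool.Agent.Q20.DetGap.Basic

/-!
Subgroups of the symmetric group of degree 7 with a fixed point, or with an invariant pair or
triple.
-/

namespace Q20.DetGap

open Equiv Equiv.Perm

lemma all7 : ∀ x : P, x = 0 ∨ x = 1 ∨ x = 2 ∨ x = 3 ∨ x = 4 ∨ x = 5 ∨ x = 6 := by decide

lemma perm_ext7 {f g : S} (h0 : f 0 = g 0) (h1 : f 1 = g 1) (h2 : f 2 = g 2) (h3 : f 3 = g 3)
    (h4 : f 4 = g 4) (h5 : f 5 = g 5) (h6 : f 6 = g 6) : f = g := by
  refine Equiv.ext fun x => ?_
  rcases all7 x with rfl | rfl | rfl | rfl | rfl | rfl | rfl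
  · exact h0
  · exact h1
  · exact h2
  · exact h3
  · exact h4
  · exact h5
  · exact h6

lemma six (k : S) (h0 : k 0 = 0) (h4 : k 4 = 4) (h5 : k 5 = 5) (h6 : k 6 = 6) :
    k = 1 ∨ k = swap 1 2 ∨ k = swap 2 3 ∨ k = swap 1 3 ∨ k = swap 1 2 * swap 1 3 ∨
      k = swap 1 3 * swap 1 2 := by
  have key : ∀ x : P, x ≠ 0 → x ≠ 4 → x ≠ 5 → x ≠ 6 → (x = 1 ∨ x = 2 ∨ x = 3) := by decide
  have ne0 : ∀ x : P, x ≠ 0 → k x ≠ 0 := fun x hx h => hx (k.injective (h.trans h0.symm))
  have ne4 : ∀ x : P, x ≠ 4 → k x ≠ 4 := fun x hx h => hx (k.injective (h.trans h4.symm))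
  have ne5 : ∀ x : P, x ≠ 5 → k x ≠ 5 := fun x hx h => hx (k.injective (h.trans h5.symm))
  have ne6 : ∀ x : P, x ≠ 6 → k x ≠ 6 := fun x hx h => hx (k.injective (h.trans h6.symm))
  have k1 := key (k 1) (ne0 1 (by decide)) (ne4 1 (by decide)) (ne5 1 (by decide))
    (ne6 1 (by decide))
  have k2 := key (k 2) (ne0 2 (by decide)) (ne4 2 (by decide)) (ne5 2 (by decide))
    (ne6 2 (by decide))
  have k3 := key (k 3) (ne0 3 (by decide)) (ne4 3 (by decide)) (ne5 3 (by decide))
    (ne6 3 (by decide))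
  have k12 : k 1 ≠ k 2 := fun h => absurd (k.injective h) (by decide)
  have k13 : k 1 ≠ k 3 := fun h => absurd (k.injective h) (by decide)
  have k23 : k 2 ≠ k 3 := fun h => absurd (k.injective h) (by decide)
  rcases k1 with k1 | k1 | k1 <;> rcases k2 with k2 | k2 | k2 <;>
    rcases k3 with k3 | k3 | k3 <;> rw [k1, k2] at k12 <;> rw [k1, k3] at k13 <;>
    rw [k2, k3] at k23 <;> first
    | exact absurd rfl k12
    | exact absurd rfl k13
    | exact absurd rfl k23
    | skip
  · left
    apply perm_ext7 <;> first | exact h0 | exact k1 | exact k2 | exact k3 | exact h4 | exact h5 | exact h6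
  · right; right; left
    apply perm_ext7
    · rw [h0]; decide
    · rw [k1]; decide
    · rw [k2]; decide
    · rw [k3]; decide
    · rw [h4]; decide
    · rw [h5]; decide
    · rw [h6]; decide
  · right; left
    apply perm_ext7
    · rw [h0]; decide
    · rw [k1]; decide
    · rw [k2]; decide
    · rw [k3]; decide
    · rw [h4]; decide
    · rw [h5]; decide
    · rw [h6]; decide
  · right; right; right; right; right
    apply perm_ext7
    · rw [h0]; decide
    · rw [k1]; decide
    · rw [k2]; decide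
    · rw [k3]; decide
    · rw [h4]; decide
    · rw [h5]; decide
    · rw [h6]; decide
  · right; right; right; right; left
    apply perm_ext7
    · rw [h0]; decide
    · rw [k1]; decide
    · rw [k2]; decide
    · rw [k3]; decide
    · rw [h4]; decide
    · rw [h5]; decide
    · rw [h6]; decide
  · right; right; right; left
    apply perm_ext7
    · rw [h0]; decide
    · rw [k1]; decide
    · rw [k2]; decide
    · rw [k3]; decide
    · rw [h4]; decide
    · rw [h5]; decide
    · rw [h6]; decide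

lemma conj_swap (g : S) (x y : P) : g * swap x y * g⁻¹ = swap (g x) (g y) :=
  (Equiv.swap_apply_apply g x y).symm

lemma mem_of_three_cycles {K : Subgroup S}
    (h : ∀ t : S, t.IsThreeCycle → t 0 = 0 → t ∈ K) (σ : S) (h1 : Perm.sign σ = 1)
    (h2 : σ 0 = 0) : σ ∈ K := by
  classical
  have hp : ∀ x : P, (σ x ≠ 0 ↔ x ≠ 0) := by
    intro x
    constructor
    · intro hx h; apply hx; rw [h, h2]
    · intro hx h; apply hx; exact σ.injective (h.trans h2.symm)
  let τ : Perm {x : P // x ≠ 0} := σ.subtypePerm hp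
  have hτ : ofSubtype τ = σ := by
    apply ofSubtype_subtypePerm
    intro x hx
    intro h
    rw [h, h2] at hx
    exact hx rfl
  have h3 : Perm.sign τ = 1 := by
    rw [← sign_ofSubtype, hτ, h1]
  have h4 : τ ∈ alternatingGroup {x : P // x ≠ 0} := h3
  rw [← closure_three_cycles_eq_alternating] at h4
  have h5 : Subgroup.closure {t : Perm {x : P // x ≠ 0} | t.IsThreeCycle} ≤
      K.comap (ofSubtype : Perm {x : P // x ≠ 0} →* S) := by
    rw [Subgroup.closure_le]
    intro t ht
    rw [SetLike.mem_coe, Subgroup.mem_comap]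
    apply h
    · show (ofSubtype t).cycleType = {3}
      rw [cycleType_ofSubtype]
      exact ht
    · exact ofSubtype_apply_of_not_mem t (by simp)
  have h6 := h5 h4
  rw [Subgroup.mem_comap, hτ] at h6
  exact h6

lemma fixed_case0 {K : Subgroup S} (hfix : ∀ k ∈ K, k 0 = 0) : Good4 K ∨ Big K := by
  classical
  by_cases H : ∀ p q r : P, p ≠ 0 → q ≠ 0 → r ≠ 0 → p ≠ q → p ≠ r → q ≠ r →
      swap p q * swap p r ∈ K
  · right
    refine ⟨0, mem_of_three_cycles ?_⟩
    intro t ht ht0
    obtain ⟨x, hx⟩ : t.support.Nonempty := by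
      rw [← Finset.card_pos, ht.card_support]; norm_num
    have h1 := (ht.eq_swap_mul_swap_iff_mem_support (a := x)).mpr hx
    have hx1 : t x ≠ x := by rwa [Perm.mem_support] at hx
    have hx2 : t (t x) ≠ t x := fun h => hx1 (t.injective h)
    have hx3 : t (t x) ≠ x := by
      intro h
      have h3 : t ^ 3 = 1 := by rw [← ht.orderOf]; exact pow_orderOf_eq_one t
      have h4 : (t ^ 3) x = t (t (t x)) := rfl
      rw [h3, h] at h4
      exact hx1 h4.symm
    have n0 : ∀ y : P, t y ≠ y → y ≠ 0 := by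
      intro y hy h; rw [h] at hy; exact hy ht0
    rw [h1, swap_comm x (t x)]
    refine H _ _ _ (n0 _ hx2) (n0 _ hx1) (n0 _ ?_) hx1 (Ne.symm hx2) (Ne.symm hx3)
    intro h
    exact hx2 (t.injective h)
  · left
    push Not at H
    obtain ⟨p, q, r, hp, hq, hr, hpq, hpr, hqr, hK⟩ := H
    obtain ⟨u, v, hu, hv, huv, hK'⟩ : ∃ u v : P, u ≠ 0 ∧ v ≠ 0 ∧ u ≠ v ∧ swap u v ∉ K := by
      by_cases h1 : swap p q ∈ K
      · by_cases h2 : swap p r ∈ K
        · exact absurd (K.mul_mem h1 h2) hK
        · exact ⟨p, r, hp, hr, hpr, h2⟩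
      · exact ⟨p, q, hp, hq, hpq, h1⟩
    obtain ⟨g₁, a1, a2, a3⟩ := exists_perm3 (a := (4 : P)) (b := 1) (c := 2) (a' := 0) (b' := u)
      (c' := v) (by decide) (by decide) (by decide) hu.symm hv.symm huv
    obtain ⟨g₂, b1, b2, b3⟩ := exists_perm3 (a := (5 : P)) (b := 2) (c := 3) (a' := 0) (b' := u)
      (c' := v) (by decide) (by decide) (by decide) hu.symm hv.symm huv
    obtain ⟨g₃, c1, c2, c3⟩ := exists_perm3 (a := (6 : P)) (b := 1) (c := 3) (a' := 0) (b' := u)
      (c' := v) (by decide) (by decide) (by decide) hu.symm hv.symm huv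
    obtain ⟨g₄, d1, d2, d3, d4⟩ := exists_perm4 (a := (0 : P)) (b := 1) (c := 2) (d := 3)
      (a' := 0) (b' := p) (c' := q) (d' := r) (by decide) (by decide) (by decide) (by decide)
      (by decide) (by decide) hp.symm hq.symm hpq hr.symm hpr hqr
    refine ⟨g₁, g₂, g₃, g₄, ?_⟩
    intro k h1 h2 h3 h4
    have fix : ∀ (g : S) (x : P), g x = 0 → g * k * g⁻¹ ∈ K → k x = x := by
      intro g x hx h
      have h5 := hfix _ h
      have h6 : g (k (g⁻¹ 0)) = 0 := h5
      have h7 : g⁻¹ 0 = x := by rw [← hx]; simp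
      rw [h7, ← hx] at h6
      exact g.injective h6
    rcases six k (fix _ _ d1 h4) (fix _ _ a1 h1) (fix _ _ b1 h2) (fix _ _ c1 h3) with
      rfl | rfl | rfl | rfl | rfl | rfl
    · rfl
    · rw [conj_swap, a2, a3] at h1; exact absurd h1 hK'
    · rw [conj_swap, b2, b3] at h2; exact absurd h2 hK'
    · rw [conj_swap, c2, c3] at h3; exact absurd h3 hK'
    · have h5 : g₄ * (swap 1 2 * swap 1 3) * g₄⁻¹ = (g₄ * swap 1 2 * g₄⁻¹) * (g₄ * swap 1 3 * g₄⁻¹) := by
        group
      rw [h5, conj_swap, conj_swap, d2, d3, d4] at h4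
      exact absurd h4 hK
    · have h5 : g₄ * (swap 1 3 * swap 1 2) * g₄⁻¹ = (g₄ * swap 1 3 * g₄⁻¹) * (g₄ * swap 1 2 * g₄⁻¹) := by
        group
      rw [h5, conj_swap, conj_swap, d2, d3, d4] at h4
      have h6 := K.inv_mem h4
      rw [mul_inv_rev, swap_inv, swap_inv] at h6
      exact absurd h6 hK

lemma fixed_case {K : Subgroup S} {a : P} (hfix : ∀ k ∈ K, k a = a) : Good4 K ∨ Big K := by
  have h : ∀ k ∈ K.map (MulAut.conj (swap a 0)).toMonoidHom, k 0 = 0 := by
    rintro _ ⟨k, hk, rfl⟩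
    show swap a 0 (k ((swap a 0)⁻¹ 0)) = 0
    rw [swap_inv, swap_apply_right, hfix k hk, swap_apply_left]
  rcases fixed_case0 h with h1 | h1
  · exact Or.inl h1.conj
  · exact Or.inr h1.conj

/-- invariant pair -/
lemma pair_case {K : Subgroup S} {a b : P} (hab : a ≠ b)
    (hinv : ∀ k ∈ K, (k a = a ∨ k a = b) ∧ (k b = a ∨ k b = b)) : Good4 K := by
  obtain ⟨g₁, a1, a2⟩ := exists_perm2 (a := (0 : P)) (b := 1) (by decide) hab
  obtain ⟨g₂, b1, b2⟩ := exists_perm2 (a := (1 : P)) (b := 2) (by decide) hab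
  obtain ⟨g₃, c1, c2⟩ := exists_perm2 (a := (3 : P)) (b := 4) (by decide) hab
  obtain ⟨g₄, d1, d2⟩ := exists_perm2 (a := (4 : P)) (b := 5) (by decide) hab
  refine ⟨g₁, g₂, g₃, g₄, ?_⟩
  intro k h1 h2 h3 h4
  have pres : ∀ (g : S) (x y : P), g x = a → g y = b → g * k * g⁻¹ ∈ K →
      (k x = x ∨ k x = y) ∧ (k y = x ∨ k y = y) := by
    intro g x y hx hy h
    obtain ⟨h5, h6⟩ := hinv _ h
    have e1 : (g * k * g⁻¹) a = g (k x) := by
      show g (k (g⁻¹ a)) = g (k x)
      rw [← hx]; simp
    have e2 : (g * k * g⁻¹) b = g (k y) := by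
      show g (k (g⁻¹ b)) = g (k y)
      rw [← hy]; simp
    rw [e1, ← hx, ← hy] at h5
    rw [e2, ← hx, ← hy] at h6
    exact ⟨h5.imp (fun h => g.injective h) (fun h => g.injective h),
      h6.imp (fun h => g.injective h) (fun h => g.injective h)⟩
  have p1 := pres _ _ _ a1 a2 h1
  have p2 := pres _ _ _ b1 b2 h2
  have p3 := pres _ _ _ c1 c2 h3
  have p4 := pres _ _ _ d1 d2 h4
  have k1 : k 1 = 1 := by
    rcases p1.2 with h | h
    · rcases p2.1 with h' | h'
      · exact h'
      · exact absurd (h.symm.trans h') (by decide)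
    · exact h
  have k0 : k 0 = 0 := by
    rcases p1.1 with h | h
    · exact h
    · exact absurd (k.injective (h.trans k1.symm)) (by decide)
  have k2 : k 2 = 2 := by
    rcases p2.2 with h | h
    · exact absurd (k.injective (h.trans k1.symm)) (by decide)
    · exact h
  have k4 : k 4 = 4 := by
    rcases p3.2 with h | h
    · rcases p4.1 with h' | h'
      · exact h'
      · exact absurd (h.symm.trans h') (by decide)
    · exact h
  have k3 : k 3 = 3 := by
    rcases p3.1 with h | h
    · exact h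
    · exact absurd (k.injective (h.trans k4.symm)) (by decide)
  have k5 : k 5 = 5 := by
    rcases p4.2 with h | h
    · exact absurd (k.injective (h.trans k4.symm)) (by decide)
    · exact h
  have k6 : k 6 = 6 := by
    rcases all7 (k 6) with h | h | h | h | h | h | h
    · exact absurd (k.injective (h.trans k0.symm)) (by decide)
    · exact absurd (k.injective (h.trans k1.symm)) (by decide)
    · exact absurd (k.injective (h.trans k2.symm)) (by decide)
    · exact absurd (k.injective (h.trans k3.symm)) (by decide)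
    · exact absurd (k.injective (h.trans k4.symm)) (by decide)
    · exact absurd (k.injective (h.trans k5.symm)) (by decide)
    · exact h
  exact perm_ext7 k0 k1 k2 k3 k4 k5 k6

/-- invariant triple -/
lemma triple_case {K : Subgroup S} {a b c : P} (hab : a ≠ b) (hac : a ≠ c) (hbc : b ≠ c)
    (hinv : ∀ k ∈ K, ∀ x, (x = a ∨ x = b ∨ x = c) → (k x = a ∨ k x = b ∨ k x = c)) :
    Good4 K := by
  obtain ⟨g₁, a1, a2, a3⟩ := exists_perm3 (a := (2 : P)) (b := 4) (c := 6) (by decide)
    (by decide) (by decide) hab hac hbc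
  obtain ⟨g₂, b1, b2, b3⟩ := exists_perm3 (a := (1 : P)) (b := 4) (c := 5) (by decide)
    (by decide) (by decide) hab hac hbc
  obtain ⟨g₃, c1, c2, c3⟩ := exists_perm3 (a := (1 : P)) (b := 2) (c := 3) (by decide)
    (by decide) (by decide) hab hac hbc
  refine ⟨g₁, g₂, g₃, g₃, ?_⟩
  intro k h1 h2 h3 _
  have pres : ∀ (g : S) (x y z : P), g x = a → g y = b → g z = c → g * k * g⁻¹ ∈ K →
      (k x = x ∨ k x = y ∨ k x = z) ∧ (k y = x ∨ k y = y ∨ k y = z) ∧
      (k z = x ∨ k z = y ∨ k z = z) := by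
    intro g x y z hx hy hz h
    have e : ∀ w w' : P, g w = w' → (g * k * g⁻¹) w' = g (k w) := by
      intro w w' hw
      show g (k (g⁻¹ w')) = g (k w)
      rw [← hw]; simp
    have f1 := hinv _ h a (Or.inl rfl)
    have f2 := hinv _ h b (Or.inr (Or.inl rfl))
    have f3 := hinv _ h c (Or.inr (Or.inr rfl))
    rw [e _ _ hx, ← hx, ← hy, ← hz] at f1
    rw [e _ _ hy, ← hx, ← hy, ← hz] at f2
    rw [e _ _ hz, ← hx, ← hy, ← hz] at f3
    have inj : ∀ s t : P, g s = g t → s = t := fun s t h => g.injective h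
    exact ⟨f1.imp (inj _ _) (Or.imp (inj _ _) (inj _ _)),
      f2.imp (inj _ _) (Or.imp (inj _ _) (inj _ _)),
      f3.imp (inj _ _) (Or.imp (inj _ _) (inj _ _))⟩
  obtain ⟨p12, p14, p16⟩ := pres _ _ _ _ a1 a2 a3 h1
  obtain ⟨p21, p24, p25⟩ := pres _ _ _ _ b1 b2 b3 h2
  obtain ⟨p31, p32, p33⟩ := pres _ _ _ _ c1 c2 c3 h3
  have k1 : k 1 = 1 := by
    rcases p21 with h | h | h <;> rcases p31 with h' | h' | h' <;>
      first | exact h | exact h' | exact absurd (h.symm.trans h') (by decide)
  have k2 : k 2 = 2 := by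
    rcases p12 with h | h | h <;> rcases p32 with h' | h' | h' <;>
      first | exact h | exact h' | exact absurd (h.symm.trans h') (by decide)
  have k4 : k 4 = 4 := by
    rcases p14 with h | h | h <;> rcases p24 with h' | h' | h' <;>
      first | exact h | exact h' | exact absurd (h.symm.trans h') (by decide)
  have ne : ∀ x y : P, k y = y → x ≠ y → k x ≠ y := by
    intro x y hy hxy h
    exact hxy (k.injective (h.trans hy.symm))
  have k6 : k 6 = 6 := by
    rcases p16 with h | h | h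
    · exact absurd h (ne 6 2 k2 (by decide))
    · exact absurd h (ne 6 4 k4 (by decide))
    · exact h
  have k5 : k 5 = 5 := by
    rcases p25 with h | h | h
    · exact absurd h (ne 5 1 k1 (by decide))
    · exact absurd h (ne 5 4 k4 (by decide))
    · exact h
  have k3 : k 3 = 3 := by
    rcases p33 with h | h | h
    · exact absurd h (ne 3 1 k1 (by decide))
    · exact absurd h (ne 3 2 k2 (by decide))
    · exact h
  have k0 : k 0 = 0 := by
    rcases all7 (k 0) with h | h | h | h | h | h | h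
    · exact h
    · exact absurd h (ne 0 1 k1 (by decide))
    · exact absurd h (ne 0 2 k2 (by decide))
    · exact absurd h (ne 0 3 k3 (by decide))
    · exact absurd h (ne 0 4 k4 (by decide))
    · exact absurd h (ne 0 5 k5 (by decide))
    · exact absurd h (ne 0 6 k6 (by decide))
  exact perm_ext7 k0 k1 k2 k3 k4 k5 k6

end Q20.DetGap
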