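import Pool.Agent.Q20.DetGap.Fixed

/-!
Transitive subgroups of the symmetric group of degree 7 without transpositions and 3-cycles:
four conjugates intersect trivially.
-/

namespace Q20.DetGap

open Equiv Equiv.Perm

/-- `(a b)(u v)` is a double transposition in `K`. -/
def R (K : Subgroup S) (a b u v : P) : Prop :=
  a ≠ b ∧ a ≠ u ∧ a ≠ v ∧ b ≠ u ∧ b ≠ v ∧ u ≠ v ∧ swap a b * swap u v ∈ K

section

variable {K : Subgroup S}

lemma R.symm {a b u v : P} (h : R K a b u v) : R K u v a b := by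
  obtain ⟨h1, h2, h3, h4, h5, h6, h7⟩ := h
  refine ⟨h6, h2.symm, h4.symm, h3.symm, h5.symm, h1, ?_⟩
  have h8 : swap u v * swap a b = swap a b * swap u v := by
    have := conj_swap (swap u v) a b
    rw [swap_apply_of_ne_of_ne h2 h3, swap_apply_of_ne_of_ne h4 h5] at this
    exact mul_inv_eq_iff_eq_mul.mp this
  rw [h8]; exact h7

lemma R.swap1 {a b u v : P} (h : R K a b u v) : R K b a u v := by
  obtain ⟨h1, h2, h3, h4, h5, h6, h7⟩ := h
  exact ⟨h1.symm, h4, h5, h2, h3, h6, by rw [swap_comm b a]; exact h7⟩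

lemma R.swap2 {a b u v : P} (h : R K a b u v) : R K a b v u := by
  obtain ⟨h1, h2, h3, h4, h5, h6, h7⟩ := h
  exact ⟨h1, h3, h2, h5, h4, h6.symm, by rw [swap_comm v u]; exact h7⟩

lemma R.conj {a b u v : P} (h : R K a b u v) {k : S} (hk : k ∈ K) :
    R K (k a) (k b) (k u) (k v) := by
  obtain ⟨h1, h2, h3, h4, h5, h6, h7⟩ := h
  refine ⟨k.injective.ne h1, k.injective.ne h2, k.injective.ne h3, k.injective.ne h4,
    k.injective.ne h5, k.injective.ne h6, ?_⟩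
  have : swap (k a) (k b) * swap (k u) (k v) = k * (swap a b * swap u v) * k⁻¹ := by
    rw [← conj_swap, ← conj_swap]; group
  rw [this]
  exact K.mul_mem (K.mul_mem hk h7) (K.inv_mem hk)

lemma shift_mem (hs : Equiv.addRight (1 : P) ∈ K) (t : P) : Equiv.addRight t ∈ K := by
  have h0 : ∀ n : ℕ, (Equiv.addRight (1 : P)) ^ n = Equiv.addRight (n : P) := by
    intro n
    induction n with
    | zero => ext x; simp
    | succ n ih =>
      rw [pow_succ, ih]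
      refine Equiv.ext fun x => ?_
      show x + 1 + (n : P) = x + ((n + 1 : ℕ) : P)
      push_cast; ring
  have h1 : (Equiv.addRight (1 : P)) ^ t.val = Equiv.addRight t := by
    rw [h0, ZMod.natCast_zmod_val t]
  rw [← h1]
  exact K.pow_mem hs _

lemma R.shift (hs : Equiv.addRight (1 : P) ∈ K) {a b u v : P} (h : R K a b u v) (t : P) :
    R K (a + t) (b + t) (u + t) (v + t) := h.conj (shift_mem hs t)

/-- a product of two transpositions in `K` -/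
lemma NoSmall.two (hK : NoSmall K) {a b u v : P} (hab : a ≠ b) (huv : u ≠ v)
    (h : swap a b * swap u v ∈ K) : (u = a ∧ v = b) ∨ (u = b ∧ v = a) ∨ R K a b u v := by
  by_cases h1 : u = a
  · subst h1
    by_cases h2 : v = b
    · exact Or.inl ⟨rfl, h2⟩
    · exact absurd (isThreeCycle_swap_mul_swap_same hab huv (Ne.symm h2)) (hK _ h).2
  by_cases h2 : u = b
  · subst h2
    by_cases h3 : v = a
    · exact Or.inr (Or.inl ⟨rfl, h3⟩)
    · rw [swap_comm a u] at h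
      exact absurd (isThreeCycle_swap_mul_swap_same h1 huv (Ne.symm h3)) (hK _ h).2
  by_cases h3 : v = a
  · subst h3
    rw [swap_comm u v] at h
    exact absurd (isThreeCycle_swap_mul_swap_same hab (Ne.symm huv) (Ne.symm h2)) (hK _ h).2
  by_cases h4 : v = b
  · subst h4
    rw [swap_comm a v, swap_comm u v] at h
    exact absurd (isThreeCycle_swap_mul_swap_same (Ne.symm hab) (Ne.symm huv) (Ne.symm h1))
      (hK _ h).2
  exact Or.inr (Or.inr ⟨hab, Ne.symm h1, Ne.symm h3, Ne.symm h2, Ne.symm h4, huv, h⟩)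

lemma NoSmall.trans (hK : NoSmall K) {a b u v u' v' : P} (h : R K a b u v)
    (h' : R K a b u' v') : (u' = u ∧ v' = v) ∨ (u' = v ∧ v' = u) ∨ R K u v u' v' := by
  apply hK.two h.2.2.2.2.2.1 h'.2.2.2.2.2.1
  have h1 := K.mul_mem (K.inv_mem h.2.2.2.2.2.2) h'.2.2.2.2.2.2
  rw [mul_inv_rev, swap_inv, swap_inv] at h1
  have : swap u v * swap a b * (swap a b * swap u' v') = swap u v * swap u' v' := by
    rw [mul_assoc, ← mul_assoc (swap a b), swap_mul_self, one_mul]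
  rwa [this] at h1

lemma NoSmall.pres (hK : NoSmall K) {a b : P} (hab : a ≠ b) {k : S} (hk : k ∈ K)
    (hk' : swap a b * k * (swap a b)⁻¹ ∈ K) :
    (k a = a ∧ k b = b) ∨ (k a = b ∧ k b = a) ∨ R K a b (k a) (k b) := by
  apply hK.two hab (k.injective.ne hab)
  have h1 := K.mul_mem hk' (K.inv_mem hk)
  have h2 : swap a b * k * (swap a b)⁻¹ * k⁻¹ = swap a b * swap (k a) (k b) := by
    rw [← conj_swap k a b, swap_inv]; group
  rwa [h2] at h1

/-- a lonely difference -/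
lemma lonely_case (hK : NoSmall K) (hs : Equiv.addRight (1 : P) ∈ K) {δ : P} (hδ : δ ≠ 0)
    (h : ∀ u v, ¬ R K 0 δ u v) : Good4 K := by
  have h' : ∀ i u v, ¬ R K i (i + δ) u v := by
    intro i u v hR
    have := hR.shift hs (-i)
    rw [add_neg_cancel, add_right_comm, add_neg_cancel, zero_add] at this
    exact h _ _ this
  have dist : ∀ d : P, d ≠ 0 → d ≠ d + d ∧ d + d ≠ d + d + d ∧ (0 : P) ≠ d + d ∧
      (0 : P) ≠ d + d + d ∧ d ≠ d + d + d := by decide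
  obtain ⟨d1, d2, d3, d4, d5⟩ := dist δ hδ
  refine ⟨1, swap 0 δ, swap δ (δ + δ), swap (δ + δ) (δ + δ + δ), ?_⟩
  intro k k1 k2 k3 k4
  have hk : k ∈ K := by simpa using k1
  have p1 : (k 0 = 0 ∧ k δ = δ) ∨ (k 0 = δ ∧ k δ = 0) := by
    rcases hK.pres hδ.symm hk k2 with h1 | h1 | h1
    · exact Or.inl h1
    · exact Or.inr h1
    · exact absurd h1 (h _ _)
  have p2 : (k δ = δ ∧ k (δ + δ) = δ + δ) ∨ (k δ = δ + δ ∧ k (δ + δ) = δ) := by
    rcases hK.pres d1 hk k3 with h1 | h1 | h1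
    · exact Or.inl h1
    · exact Or.inr h1
    · exact absurd h1 (h' _ _ _)
  have p3 : (k (δ + δ) = δ + δ ∧ k (δ + δ + δ) = δ + δ + δ) ∨
      (k (δ + δ) = δ + δ + δ ∧ k (δ + δ + δ) = δ + δ) := by
    rcases hK.pres d2 hk k4 with h1 | h1 | h1
    · exact Or.inl h1
    · exact Or.inr h1
    · exact absurd h1 (h' _ _ _)
  have q1 : k 0 = 0 ∧ k δ = δ := by
    rcases p1 with h1 | h1
    · exact h1
    · rcases p2 with h2 | h2
      · exact absurd (h1.2.symm.trans h2.1) hδ.symm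
      · exact absurd (h1.2.symm.trans h2.1) d3
  have q2 : k (δ + δ) = δ + δ := by
    rcases p2 with h2 | h2
    · exact h2.2
    · exact absurd (q1.2.symm.trans h2.1) d1
  have q3 : k (δ + δ + δ) = δ + δ + δ := by
    rcases p3 with h2 | h2
    · exact h2.2
    · exact absurd (q2.symm.trans h2.1) d2
  exact hK.eq_one hk hδ.symm d3 d4 d1 d5 d2 q1.1 q1.2 q2 q3

lemma same_type (hK : NoSmall K) (hs : Equiv.addRight (1 : P) ∈ K) {δ x : P} :
    ¬ R K 0 δ x (x + δ) := by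
  intro h
  have hx : x ≠ 0 := h.2.1.symm
  have hδ : δ ≠ 0 := h.1.symm
  have h1 : R K 0 δ (-x) (-x + δ) := by
    have := h.shift hs (-x)
    rw [zero_add, add_neg_cancel, add_right_comm, add_neg_cancel, zero_add, add_comm δ] at this
    exact this.symm
  have h2 : R K x (x + δ) (-x) (-x + δ) := by
    rcases hK.trans h h1 with h3 | h3 | h3
    · exfalso
      have : ∀ x : P, x ≠ 0 → -x ≠ x := by decide
      exact this x hx h3.1
    · exfalso
      have : ∀ x δ : P, δ ≠ 0 → -x = x + δ → -x + δ ≠ x := by decide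
      exact this x δ hδ h3.1 h3.2
    · exact h3
  have h3 : R K 0 δ (-x - x) (-x - x + δ) := by
    have := h2.shift hs (-x)
    have e1 : x + δ + -x = δ := by ring
    have e2 : -x + δ + -x = -x - x + δ := by ring
    rw [add_neg_cancel, e1, e2, ← sub_eq_add_neg] at this
    exact this
  have h4 : R K x (x + δ) (-x - x) (-x - x + δ) := by
    rcases hK.trans h h3 with h5 | h5 | h5
    · exfalso
      have : ∀ x : P, x ≠ 0 → -x - x ≠ x := by decide
      exact this x hx h5.1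
    · exfalso
      have : ∀ x δ : P, δ ≠ 0 → -x - x = x + δ → -x - x + δ ≠ x := by decide
      exact this x δ hδ h5.1 h5.2
    · exact h5
  have h5 : R K (-x) (-x + δ) (-x - x) (-x - x + δ) := by
    rcases hK.trans h1 h3 with h5 | h5 | h5
    · exfalso
      have : ∀ x : P, x ≠ 0 → -x - x ≠ -x := by decide
      exact this x hx h5.1
    · exfalso
      have : ∀ x δ : P, δ ≠ 0 → -x - x = -x + δ → -x - x + δ ≠ -x := by decide
      exact this x δ hδ h5.1 h5.2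
    · exact h5
  have key : ∀ x δ : P, (0 ≠ x ∧ 0 ≠ x + δ ∧ δ ≠ x ∧ δ ≠ x + δ) →
      (0 ≠ -x ∧ 0 ≠ -x + δ ∧ δ ≠ -x ∧ δ ≠ -x + δ) →
      (0 ≠ -x - x ∧ 0 ≠ -x - x + δ ∧ δ ≠ -x - x ∧ δ ≠ -x - x + δ) →
      (x ≠ -x ∧ x ≠ -x + δ ∧ x + δ ≠ -x ∧ x + δ ≠ -x + δ) →
      (x ≠ -x - x ∧ x ≠ -x - x + δ ∧ x + δ ≠ -x - x ∧ x + δ ≠ -x - x + δ) →
      (-x ≠ -x - x ∧ -x ≠ -x - x + δ ∧ -x + δ ≠ -x - x ∧ -x + δ ≠ -x - x + δ) →
      δ ≠ 0 → False := by decide
  exact key x δ ⟨h.2.1, h.2.2.1, h.2.2.2.1, h.2.2.2.2.1⟩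
    ⟨h1.2.1, h1.2.2.1, h1.2.2.2.1, h1.2.2.2.2.1⟩
    ⟨h3.2.1, h3.2.2.1, h3.2.2.2.1, h3.2.2.2.2.1⟩
    ⟨h2.2.1, h2.2.2.1, h2.2.2.2.1, h2.2.2.2.2.1⟩
    ⟨h4.2.1, h4.2.2.1, h4.2.2.2.1, h4.2.2.2.2.1⟩
    ⟨h5.2.1, h5.2.2.1, h5.2.2.2.1, h5.2.2.2.2.1⟩ hδ

/-- Flip: from a partner of difference `ε` of `{0, δ}` to a partner of `{0, ε}`. -/
lemma flip (hs : Equiv.addRight (1 : P) ∈ K) {δ ε u : P} (h : R K 0 δ u (u + ε)) :
    R K 0 ε (-u) (-u + δ) := by
  have := (h.shift hs (-u)).symm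
  have e1 : u + ε + -u = ε := by ring
  rw [add_neg_cancel, e1, zero_add, add_comm δ] at this
  exact this

lemma diff_cases : ∀ u v : P, u ≠ v → (v = u + 1 ∨ u = v + 1 ∨ v = u + 2 ∨ u = v + 2 ∨
    v = u + 3 ∨ u = v + 3) := by decide

/-- The full structure. -/
lemma full (hK : NoSmall K) (hs : Equiv.addRight (1 : P) ∈ K)
    (h : ∀ δ : P, δ ≠ 0 → ∃ u v, R K 0 δ u v) :
    ∃ x y, R K 0 1 x (x + 2) ∧ R K 0 1 y (y + 3) ∧ R K x (x + 2) y (y + 3) := by
  -- partners written with a positive difference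
  have part : ∀ δ : P, δ ≠ 0 → ∃ u, R K 0 δ u (u + 1) ∨ R K 0 δ u (u + 2) ∨
      R K 0 δ u (u + 3) := by
    intro δ hδ
    obtain ⟨u, v, huv⟩ := h δ hδ
    rcases diff_cases u v huv.2.2.2.2.2.1 with h1 | h1 | h1 | h1 | h1 | h1
    · exact ⟨u, Or.inl (h1 ▸ huv)⟩
    · exact ⟨v, Or.inl (h1 ▸ huv.swap2)⟩
    · exact ⟨u, Or.inr (Or.inl (h1 ▸ huv))⟩
    · exact ⟨v, Or.inr (Or.inl (h1 ▸ huv.swap2))⟩
    · exact ⟨u, Or.inr (Or.inr (h1 ▸ huv))⟩
    · exact ⟨v, Or.inr (Or.inr (h1 ▸ huv.swap2))⟩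
  have c1 : (∃ x, R K 0 1 x (x + 2)) ∨ ∃ y, R K 0 1 y (y + 3) := by
    obtain ⟨u, h1 | h1 | h1⟩ := part 1 (by decide)
    · exact absurd h1 (same_type hK hs)
    · exact Or.inl ⟨u, h1⟩
    · exact Or.inr ⟨u, h1⟩
  have c2 : (∃ x, R K 0 1 x (x + 2)) ∨ ∃ y, R K 0 2 y (y + 3) := by
    obtain ⟨u, h1 | h1 | h1⟩ := part 2 (by decide)
    · exact Or.inl ⟨-u, flip hs h1⟩
    · exact absurd h1 (same_type hK hs)
    · exact Or.inr ⟨u, h1⟩
  have c3 : (∃ x, R K 0 1 x (x + 3)) ∨ ∃ y, R K 0 2 y (y + 3) := by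
    obtain ⟨u, h1 | h1 | h1⟩ := part 3 (by decide)
    · exact Or.inl ⟨-u, flip hs h1⟩
    · exact Or.inr ⟨-u, flip hs h1⟩
    · exact absurd h1 (same_type hK hs)
  have main : (∃ x, R K 0 1 x (x + 2)) ∧ ∃ y, R K 0 1 y (y + 3) := by
    have a1 : (∃ x, R K 0 1 x (x + 2)) → (∃ y, R K 0 2 y (y + 3)) → ∃ y, R K 0 1 y (y + 3) := by
      rintro ⟨x, hx⟩ ⟨y, hy⟩
      have h1 := hy.shift hs x
      have e1 : (0 : P) + x = x := zero_add x
      have e2 : (2 : P) + x = x + 2 := add_comm _ _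
      have e3 : y + 3 + x = y + x + 3 := by ring
      rw [e1, e2, e3] at h1
      rcases hK.trans hx.symm h1 with h2 | h2 | h2
      · exfalso
        have : ∀ t : P, t = 0 → t + 3 ≠ 1 := by decide
        exact this _ h2.1 h2.2
      · exfalso
        have : ∀ t : P, t = 1 → t + 3 ≠ 0 := by decide
        exact this _ h2.1 h2.2
      · exact ⟨_, h2⟩
    have a2 : (∃ y, R K 0 1 y (y + 3)) → (∃ y, R K 0 2 y (y + 3)) → ∃ x, R K 0 1 x (x + 2) := by
      rintro ⟨y, hy⟩ ⟨x, hx⟩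
      have h1 := (hx.shift hs (y - x)).symm
      have e1 : x + (y - x) = y := by ring
      have e2 : x + 3 + (y - x) = y + 3 := by ring
      have e3 : (0 : P) + (y - x) = y - x := zero_add _
      have e4 : (2 : P) + (y - x) = y - x + 2 := add_comm _ _
      rw [e1, e2, e3, e4] at h1
      rcases hK.trans hy.symm h1 with h2 | h2 | h2
      · exfalso
        have : ∀ t : P, t = 0 → t + 2 ≠ 1 := by decide
        exact this _ h2.1 h2.2
      · exfalso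
        have : ∀ t : P, t = 1 → t + 2 ≠ 0 := by decide
        exact this _ h2.1 h2.2
      · exact ⟨_, h2⟩
    rcases c1 with h1 | h1
    · rcases c3 with h3 | h3
      · exact ⟨h1, h3⟩
      · exact ⟨h1, a1 h1 h3⟩
    · rcases c2 with h2 | h2
      · exact ⟨h2, h1⟩
      · exact ⟨a2 h1 h2, h1⟩
  obtain ⟨⟨x, hx⟩, y, hy⟩ := main
  refine ⟨x, y, hx, hy, ?_⟩
  rcases hK.trans hx hy with h2 | h2 | h2
  · exfalso
    have : ∀ x y : P, y = x → y + 3 ≠ x + 2 := by decide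
    exact this _ _ h2.1 h2.2
  · exfalso
    have : ∀ x y : P, y = x + 2 → y + 3 ≠ x := by decide
    exact this _ _ h2.1 h2.2
  · exact h2

/-- the class of a pair -/
def Cls (K : Subgroup S) (a b u v : P) : Prop := (u = a ∧ v = b) ∨ (u = b ∧ v = a) ∨ R K a b u v

lemma Cls.symm2 {a b u v : P} (h : Cls K a b u v) : Cls K a b v u := by
  rcases h with h | h | h
  · exact Or.inr (Or.inl ⟨h.2, h.1⟩)
  · exact Or.inl ⟨h.2, h.1⟩
  · exact Or.inr (Or.inr h.swap2)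

lemma Cls.inv (hK : NoSmall K) {a b : P} (hab : a ≠ b) {k : S} (hk : k ∈ K)
    (hk' : swap a b * k * (swap a b)⁻¹ ∈ K) {u v : P} (h : Cls K a b u v) :
    Cls K a b (k u) (k v) := by
  have h0 : Cls K a b (k a) (k b) := hK.pres hab hk hk'
  rcases h with ⟨rfl, rfl⟩ | ⟨rfl, rfl⟩ | h
  · exact h0
  · exact h0.symm2
  · have h1 := h.conj hk
    rcases h0 with ⟨e1, e2⟩ | ⟨e1, e2⟩ | h0
    · rw [e1, e2] at h1; exact Or.inr (Or.inr h1)
    · rw [e1, e2] at h1; exact Or.inr (Or.inr h1.swap1)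
    · exact hK.trans h0.symm h1

lemma Cls.unique (hK : NoSmall K) {a b u v v' : P} (hab : a ≠ b) (h : Cls K a b u v)
    (h' : Cls K a b u v') : v = v' := by
  rcases h with ⟨e1, e2⟩ | ⟨e1, e2⟩ | h
  · rcases h' with ⟨f1, f2⟩ | ⟨f1, f2⟩ | h'
    · rw [e2, f2]
    · exact absurd (e1.symm.trans f1) hab
    · exact absurd e1.symm h'.2.1
  · rcases h' with ⟨f1, f2⟩ | ⟨f1, f2⟩ | h'
    · exact absurd (f1.symm.trans e1) hab
    · rw [e2, f2]
    · exact absurd e1.symm h'.2.2.2.1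
  · rcases h' with ⟨f1, f2⟩ | ⟨f1, f2⟩ | h'
    · exact absurd f1.symm h.2.1
    · exact absurd f1.symm h.2.2.2.1
    · rcases hK.trans h h' with h2 | h2 | h2
      · exact h2.2.symm
      · exact absurd h2.1 h.2.2.2.2.2.1
      · exact absurd rfl h2.2.1

lemma Cls.shift (hs : Equiv.addRight (1 : P) ∈ K) {a b u v : P} (h : Cls K a b u v) (t : P) :
    Cls K (a + t) (b + t) (u + t) (v + t) := by
  rcases h with ⟨e1, e2⟩ | ⟨e1, e2⟩ | h
  · exact Or.inl ⟨by rw [e1], by rw [e2]⟩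
  · exact Or.inr (Or.inl ⟨by rw [e1], by rw [e2]⟩)
  · exact Or.inr (Or.inr (h.shift hs t))

lemma full_case (hK : NoSmall K) (hs : Equiv.addRight (1 : P) ∈ K)
    (h : ∀ δ : P, δ ≠ 0 → ∃ u v, R K 0 δ u v) : Good4 K := by
  obtain ⟨x, y, hx, hy, hxy⟩ := full hK hs h
  have left : ∀ x y : P, (0 ≠ x ∧ 0 ≠ x + 2 ∧ 1 ≠ x ∧ 1 ≠ x + 2) →
      (0 ≠ y ∧ 0 ≠ y + 3 ∧ 1 ≠ y ∧ 1 ≠ y + 3) →
      (x ≠ y ∧ x ≠ y + 3 ∧ x + 2 ≠ y ∧ x + 2 ≠ y + 3) →
      ∃ z, (z ≠ 0 ∧ z ≠ 1 ∧ z ≠ x ∧ z ≠ x + 2 ∧ z ≠ y ∧ z ≠ y + 3) ∧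
        ∀ w, w = z ∨ w = 0 ∨ w = 1 ∨ w = x ∨ w = x + 2 ∨ w = y ∨ w = y + 3 := by decide
  obtain ⟨z, ⟨z0, z1, zx, zx2, zy, zy3⟩, hz⟩ := left x y
    ⟨hx.2.1, hx.2.2.1, hx.2.2.2.1, hx.2.2.2.2.1⟩ ⟨hy.2.1, hy.2.2.1, hy.2.2.2.1, hy.2.2.2.2.1⟩
    ⟨hxy.2.1, hxy.2.2.1, hxy.2.2.2.1, hxy.2.2.2.2.1⟩
  have h01 : (0 : P) ≠ 1 := by decide
  have inU : ∀ w, w ≠ z → ∃ v, Cls K 0 1 w v := by
    intro w hw
    rcases hz w with rfl | rfl | rfl | rfl | rfl | rfl | rfl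
    · exact absurd rfl hw
    · exact ⟨1, Or.inl ⟨rfl, rfl⟩⟩
    · exact ⟨0, Or.inr (Or.inl ⟨rfl, rfl⟩)⟩
    · exact ⟨_, Or.inr (Or.inr hx)⟩
    · exact ⟨_, Or.inr (Or.inr hx.swap2)⟩
    · exact ⟨_, Or.inr (Or.inr hy)⟩
    · exact ⟨_, Or.inr (Or.inr hy.swap2)⟩
  have notU : ∀ v, ¬ Cls K 0 1 z v := by
    intro v hv
    have hzv : z ≠ v := by
      rcases hv with ⟨e1, _⟩ | ⟨e1, _⟩ | h2
      · exact absurd e1 z0
      · exact absurd e1 z1
      · exact h2.2.2.2.2.2.1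
    have hv' := hv.symm2
    rcases hz v with rfl | rfl | rfl | rfl | rfl | rfl | rfl
    · exact hzv rfl
    · exact z1 (hv'.unique hK h01 (Or.inl ⟨rfl, rfl⟩))
    · exact z0 (hv'.unique hK h01 (Or.inr (Or.inl ⟨rfl, rfl⟩)))
    · exact zx2 (hv'.unique hK h01 (Or.inr (Or.inr hx)))
    · exact zx (hv'.unique hK h01 (Or.inr (Or.inr hx.swap2)))
    · exact zy3 (hv'.unique hK h01 (Or.inr (Or.inr hy)))
    · exact zy (hv'.unique hK h01 (Or.inr (Or.inr hy.swap2)))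
  -- shifted versions
  have inU' : ∀ i w, w ≠ z + i → ∃ v, Cls K i (i + 1) w v := by
    intro i w hw
    obtain ⟨v, hv⟩ := inU (w - i) (fun h => hw (by rw [← h]; ring))
    have := hv.shift hs i
    rw [zero_add, sub_add_cancel, add_comm 1 i] at this
    exact ⟨_, this⟩
  have notU' : ∀ i v, ¬ Cls K i (i + 1) (z + i) v := by
    intro i v hv
    have := hv.shift hs (-i)
    have e1 : i + 1 + -i = 1 := by ring
    have e2 : z + i + -i = z := by ring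
    rw [add_neg_cancel, e1, e2] at this
    exact notU _ this
  have hii : ∀ i : P, i ≠ i + 1 := by decide
  have fixz : ∀ i (k : S), k ∈ K → swap i (i + 1) * k * (swap i (i + 1))⁻¹ ∈ K →
      k (z + i) = z + i := by
    intro i k hk hk'
    by_contra hne
    obtain ⟨v, hv⟩ := inU' i _ hne
    have h1 : swap i (i + 1) * k⁻¹ * (swap i (i + 1))⁻¹ ∈ K := by
      have := K.inv_mem hk'
      have e : (swap i (i + 1) * k * (swap i (i + 1))⁻¹)⁻¹ =
          swap i (i + 1) * k⁻¹ * (swap i (i + 1))⁻¹ := by group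
      rwa [e] at this
    have h2 := hv.inv hK (hii i) (K.inv_mem hk) h1
    have e3 : k⁻¹ (k (z + i)) = z + i := by simp
    rw [e3] at h2
    exact notU' i _ h2
  obtain ⟨w, hw⟩ := inU (z + 1) (fun h => absurd h (by
    have : ∀ t : P, t + 1 ≠ t := by decide
    exact this z))
  have hwz : w ≠ z := by
    intro h; rw [h] at hw; exact notU _ hw.symm2
  have hwz1 : w ≠ z + 1 := by
    intro h
    rw [h] at hw
    rcases hw with ⟨e1, e2⟩ | ⟨e1, e2⟩ | h2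
    · exact h01 (e1.symm.trans e2)
    · exact h01 (e2.symm.trans e1)
    · exact h2.2.2.2.2.2.1 rfl
  obtain ⟨j, hj0, hj1, hjw⟩ : ∃ j : P, z + j ≠ z ∧ z + j ≠ z + 1 ∧ z + j ≠ w := by
    have : ∀ z w : P, ∃ j : P, z + j ≠ z ∧ z + j ≠ z + 1 ∧ z + j ≠ w := by decide
    exact this z w
  refine ⟨1, swap 0 (0 + 1), swap 1 (1 + 1), swap j (j + 1), ?_⟩
  intro k k1 k2 k3 k4
  have hk : k ∈ K := by simpa using k1
  have f0 := fixz 0 k hk k2
  rw [add_zero] at f0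
  have f1 := fixz 1 k hk k3
  have f2 := fixz j k hk k4
  have f3 : k w = w := by
    rw [zero_add] at k2
    have := hw.inv hK h01 hk k2
    rw [f1] at this
    exact this.unique hK h01 hw
  exact hK.eq_one hk (a := z) (b := z + 1) (c := z + j) (d := w)
    (fun h => absurd h.symm (by
      have : ∀ t : P, t + 1 ≠ t := by decide
      exact this z)) hj0.symm hwz.symm hj1.symm hwz1.symm hjw f0 f1 f2 f3

lemma shift_case (hK : NoSmall K) (hs : Equiv.addRight (1 : P) ∈ K) : Good4 K := by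
  by_cases h : ∀ δ : P, δ ≠ 0 → ∃ u v, R K 0 δ u v
  · exact full_case hK hs h
  · push Not at h
    obtain ⟨δ, hδ, h⟩ := h
    exact lonely_case hK hs hδ h

end

end Q20.DetGap
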