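import Mathlib
import Pool.Agent.Q20.DetGap.Fixed
import Pool.Agent.Q20.DetGap.Trans

/-!
Every subgroup of the symmetric group of degree 7 either has four conjugates with trivial
intersection or contains all even permutations fixing some point.
-/

namespace Q20.DetGap

open Equiv Equiv.Perm

lemma order_shift : orderOf (Equiv.addRight (1 : P)) = 7 := by
  have h1 : (Equiv.addRight (1 : P)) ^ 7 = 1 := by
    have h : ∀ x : P, x + 1 + 1 + 1 + 1 + 1 + 1 + 1 = x := by decide
    ext x
    have h' := h x
    simp only [pow_succ, pow_zero, Perm.mul_apply, Equiv.coe_addRight, Perm.one_apply]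
    rw [h']
  have h2 : (Equiv.addRight (1 : P)) ≠ 1 := by
    intro h
    have h1 := congrArg (fun f : S => f 0) h
    simp only [Equiv.coe_addRight, Perm.one_apply, zero_add] at h1
    exact absurd h1 (by decide)
  have : Fact (Nat.Prime 7) := ⟨by norm_num⟩
  exact orderOf_eq_prime h1 h2

lemma trans_case {K : Subgroup S} (hT : ∀ x : P, ∃ k ∈ K, k 0 = x) : Good4 K ∨ Big K := by
  have hT' : ∀ x y : P, ∃ k ∈ K, k x = y := by
    intro x y
    obtain ⟨k, hk, rfl⟩ := hT x
    obtain ⟨l, hl, rfl⟩ := hT y
    exact ⟨l * k⁻¹, K.mul_mem hl (K.inv_mem hk), by simp⟩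
  have hpre : MulAction.IsPretransitive K P := by
    refine ⟨fun x y => ?_⟩
    obtain ⟨k, hk, h⟩ := hT' x y
    exact ⟨⟨k, hk⟩, h⟩
  have hcard : Nat.card P = 7 := by simp [P]
  have hprim : MulAction.IsPreprimitive K P :=
    MulAction.IsPreprimitive.of_prime_card (by rw [hcard]; norm_num)
  by_cases hns : NoSmall K
  · left
    have h7 : 7 ∣ Nat.card K := by
      have h1 := MulAction.index_stabilizer_of_transitive K (0 : P)
      rw [hcard] at h1
      rw [← h1]
      exact Subgroup.index_dvd_card _
    have : Fact (Nat.Prime 7) := ⟨by norm_num⟩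
    obtain ⟨c, hc⟩ := exists_prime_orderOf_dvd_card' 7 h7
    have hc' : orderOf (c : S) = 7 := by rw [← hc]; simp
    have hs' : orderOf (Equiv.addRight (1 : P)) = 7 := order_shift
    have hp : (Fintype.card P).Prime := by
      have : Fintype.card P = 7 := by simp [P]
      rw [this]; norm_num
    have hcF : Fintype.card P = 7 := by simp [P]
    have h1 : (c : S).IsCycle := isCycle_of_prime_order'' hp (by rw [hc', hcF])
    have h2 : (Equiv.addRight (1 : P)).IsCycle := isCycle_of_prime_order'' hp (by rw [hs', hcF])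
    have h3 : IsConj (c : S) (Equiv.addRight (1 : P)) := by
      rw [h1.isConj_iff h2, ← h1.orderOf, ← h2.orderOf, hc', hs']
    obtain ⟨g, hg⟩ := isConj_iff.mp h3
    have hns' : NoSmall (K.map (MulAut.conj g).toMonoidHom) := by
      rintro _ ⟨k, hk, rfl⟩
      obtain ⟨h4, h5⟩ := hns k hk
      have e : (MulAut.conj g).toMonoidHom k = g * k * g⁻¹ := rfl
      rw [e]
      constructor
      · intro h
        apply h4
        rw [← card_support_eq_two] at h ⊢
        rwa [card_support_conj] at h
      · intro h
        apply h5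
        rw [← card_support_eq_three_iff] at h ⊢
        rwa [card_support_conj] at h
    refine Good4.conj g (shift_case hns' ?_)
    exact ⟨c, c.2, hg⟩
  · right
    have hA : ∀ σ : S, Perm.sign σ = 1 → σ ∈ K := by
      unfold NoSmall at hns
      push Not at hns
      obtain ⟨k, hk, h⟩ := hns
      by_cases h2 : k.IsSwap
      · have := subgroup_eq_top_of_isPreprimitive_of_isSwap_mem hprim k h2 hk
        intro σ _
        rw [this]; trivial
      · have h3 := h h2
        have := alternatingGroup_le_of_isPreprimitive_of_isThreeCycle_mem hprim h3 hk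
        intro σ hσ
        exact this hσ
    exact ⟨0, fun σ h _ => hA σ h⟩

lemma inv_case {K : Subgroup S} (O : Finset P) (hinv : ∀ k ∈ K, ∀ x ∈ O, k x ∈ O)
    (h0 : 0 < O.card) (h3 : O.card ≤ 3) : Good4 K ∨ Big K := by
  classical
  have h : O.card = 1 ∨ O.card = 2 ∨ O.card = 3 := by omega
  rcases h with h | h | h
  · obtain ⟨a, rfl⟩ := Finset.card_eq_one.mp h
    refine fixed_case (a := a) ?_
    intro k hk
    simpa using hinv k hk a (by simp)
  · obtain ⟨a, b, hab, rfl⟩ := Finset.card_eq_two.mp h
    left
    refine pair_case hab ?_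
    intro k hk
    exact ⟨by simpa using hinv k hk a (by simp), by simpa using hinv k hk b (by simp)⟩
  · obtain ⟨a, b, c, hab, hac, hbc, rfl⟩ := Finset.card_eq_three.mp h
    left
    refine triple_case hab hac hbc ?_
    intro k hk x hx
    have := hinv k hk x (by simpa using hx)
    simpa using this

theorem main (K : Subgroup S) : Good4 K ∨ Big K := by
  classical
  by_cases hT : ∀ x : P, ∃ k ∈ K, k 0 = x
  · exact trans_case hT
  · set O : Finset P := Finset.univ.filter (fun x => ∃ k ∈ K, k 0 = x) with hO
    have hinv : ∀ k ∈ K, ∀ x ∈ O, k x ∈ O := by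
      intro k hk x hx
      rw [hO, Finset.mem_filter] at hx ⊢
      obtain ⟨-, l, hl, rfl⟩ := hx
      exact ⟨Finset.mem_univ _, k * l, K.mul_mem hk hl, rfl⟩
    have hinv' : ∀ k ∈ K, ∀ x ∈ Oᶜ, k x ∈ Oᶜ := by
      intro k hk x hx
      rw [Finset.mem_compl] at hx ⊢
      intro h
      apply hx
      have := hinv k⁻¹ (K.inv_mem hk) (k x) h
      simpa using this
    have h0 : (0 : P) ∈ O := by
      rw [hO, Finset.mem_filter]
      exact ⟨Finset.mem_univ _, 1, K.one_mem, rfl⟩
    have hpos : 0 < O.card := Finset.card_pos.mpr ⟨_, h0⟩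
    have hc : Oᶜ.card = 7 - O.card := by
      rw [Finset.card_compl]
      rfl
    by_cases h : O.card ≤ 3
    · exact inv_case O hinv hpos h
    · refine inv_case Oᶜ hinv' ?_ (by omega)
      rw [Finset.card_pos]
      push Not at hT
      obtain ⟨x, hx⟩ := hT
      refine ⟨x, ?_⟩
      rw [Finset.mem_compl, hO, Finset.mem_filter]
      rintro ⟨-, k, hk, h⟩
      exact hx k hk h

end Q20.DetGap
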