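import Mathlib
import Pool.Agent.Q20.DetGap.Main

/-!
No finite graph whose automorphism group is the symmetric group of degree 7 has base size 5.
-/

namespace Q20.DetGap

open Equiv Equiv.Perm

section

variable {V : Type*} (Γ : SimpleGraph V) (ψ : S ≃* (Γ ≃g Γ))

/-- The vertex stabilizer, as a subgroup of the symmetric group. -/
def K (v : V) : Subgroup S where
  carrier := {s | ψ s v = v}
  one_mem' := by simp
  mul_mem' := by
    intro a b ha hb
    change ψ a v = v at ha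
    change ψ b v = v at hb
    show ψ (a * b) v = v
    rw [map_mul]
    show (ψ a) ((ψ b) v) = v
    rw [hb, ha]
  inv_mem' := by
    intro a ha
    change ψ a v = v at ha
    show ψ a⁻¹ v = v
    have h : (ψ a⁻¹) ((ψ a) v) = v := by
      have : (ψ a⁻¹ * ψ a) v = v := by rw [← map_mul]; simp
      exact this
    rwa [ha] at h

lemma mulv (a b : S) (v : V) : ψ (a * b) v = ψ a (ψ b v) := by
  rw [map_mul]; rfl

lemma mem_K (v : V) (s : S) : s ∈ K Γ ψ v ↔ ψ s v = v := Iff.rfl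

lemma oneBase {v : V} (h : Good4 (K Γ ψ v)) :
    ∃ B : Finset V, B.card ≤ 4 ∧ ∀ g : Γ ≃g Γ, (∀ x ∈ B, g x = x) → ∀ x, g x = x := by
  classical
  obtain ⟨g₁, g₂, g₃, g₄, hg⟩ := h
  refine ⟨{ψ g₁⁻¹ v, ψ g₂⁻¹ v, ψ g₃⁻¹ v, ψ g₄⁻¹ v}, Finset.card_le_four, ?_⟩
  intro g hB x
  have key : ∀ a : S, g (ψ a⁻¹ v) = ψ a⁻¹ v → a * ψ.symm g * a⁻¹ ∈ K Γ ψ v := by
    intro a ha
    rw [mem_K, mulv, mulv, MulEquiv.apply_symm_apply, ha, ← mulv]
    simp
  have h1 := hg (ψ.symm g) (key _ (hB _ (by simp))) (key _ (hB _ (by simp)))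
    (key _ (hB _ (by simp))) (key _ (hB _ (by simp)))
  have h2 : g = 1 := by simpa using h1
  rw [h2]; rfl

/-- `a` is admissible for `v`. -/
def Adm (v : V) (a : P) : Prop := ∀ σ : S, Perm.sign σ = 1 → σ a = a → ψ σ v = v

lemma exists_odd (a b : P) : ∃ h : S, Perm.sign h = -1 ∧ h a = a ∧ h b = b := by
  have : ∃ x y : P, x ≠ y ∧ x ≠ a ∧ x ≠ b ∧ y ≠ a ∧ y ≠ b := by
    revert a b; decide
  obtain ⟨x, y, hxy, h1, h2, h3, h4⟩ := this
  exact ⟨swap x y, sign_swap hxy, swap_apply_of_ne_of_ne h1.symm h3.symm,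
    swap_apply_of_ne_of_ne h2.symm h4.symm⟩

lemma Adm.eq {Γ : SimpleGraph V} {ψ : S ≃* (Γ ≃g Γ)} {v : V} {a : P} (ha : Adm Γ ψ v a)
    {g h : S} (hg : Perm.sign g = -1) (hg' : g a = a) (hh : Perm.sign h = -1) (hh' : h a = a) :
    ψ g v = ψ h v := by
  have h1 : ψ (h⁻¹ * g) v = v := by
    apply ha
    · simp [hg, hh]
    · show h⁻¹ (g a) = a
      rw [hg']
      exact Perm.inv_eq_iff_eq.mpr hh'.symm
  have h2 := congrArg (ψ h) h1
  rw [← mulv] at h2
  simpa using h2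

lemma Adm.eq' {Γ : SimpleGraph V} {ψ : S ≃* (Γ ≃g Γ)} {v : V} {a b : P} (ha : Adm Γ ψ v a)
    (hb : Adm Γ ψ v b)
    {g h : S} (hg : Perm.sign g = -1) (hg' : g a = a) (hh : Perm.sign h = -1) (hh' : h b = b) :
    ψ g v = ψ h v := by
  obtain ⟨k, hk, hka, hkb⟩ := exists_odd a b
  rw [ha.eq hg hg' hk hka, hb.eq hk hkb hh hh']

lemma Adm.smul {Γ : SimpleGraph V} {ψ : S ≃* (Γ ≃g Γ)} {v : V} {a : P} (ha : Adm Γ ψ v a)
    (s : S) : Adm Γ ψ (ψ s v) (s a) := by
  intro σ h1 h2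
  have h3 : ψ (s⁻¹ * σ * s) v = v := by
    apply ha
    · simp [h1]
    · show s⁻¹ (σ (s a)) = a
      rw [h2]; simp
  rw [← mulv]
  have h4 := congrArg (ψ s) h3
  rw [← mulv] at h4
  have e : s * (s⁻¹ * σ * s) = σ * s := by group
  rwa [e] at h4

lemma exists_third : ∀ x z : P, ∃ y : P, y ≠ x ∧ y ≠ z := by decide

lemma central {t : S} (h : ∀ s : S, t * s = s * t) : t = 1 := by
  ext x
  by_contra hx
  have hx : t x ≠ x := hx
  obtain ⟨y, hy1, hy2⟩ : ∃ y : P, y ≠ x ∧ y ≠ t x := exists_third x (t x)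
  have h1 := congrArg (fun f : S => f x) (h (swap x y))
  simp only [Perm.mul_apply, swap_apply_left] at h1
  rw [swap_apply_of_ne_of_ne hx hy2.symm] at h1
  exact hy1 (t.injective h1)

include ψ in
theorem no_five [Finite V]
    (h4 : ∀ B : Finset V, (∀ g : Γ ≃g Γ, (∀ x ∈ B, g x = x) → ∀ x, g x = x) → 4 < B.card)
    (B : Finset V) (hB : ∀ g : Γ ≃g Γ, (∀ x ∈ B, g x = x) → ∀ x, g x = x) : B.card ≠ 5 := by
  classical
  intro hcard
  have hbig : ∀ v : V, ∃ a, Adm Γ ψ v a := by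
    intro v
    rcases main (K Γ ψ v) with h | h
    · obtain ⟨B', hB', hB''⟩ := oneBase Γ ψ h
      have := h4 B' hB''
      omega
    · exact h
  choose a ha using hbig
  have hodd : ∀ v : V, ∃ h : S, Perm.sign h = -1 ∧ h (a v) = a v := by
    intro v
    obtain ⟨h, h1, h2, -⟩ := exists_odd (a v) (a v)
    exact ⟨h, h1, h2⟩
  choose o ho ho' using hodd
  set τ : V → V := fun v => ψ (o v) v with hτ
  have hτ' : ∀ v b, Adm Γ ψ v b → ∀ g : S, Perm.sign g = -1 → g b = b → τ v = ψ g v := by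
    intro v b hb g hg hg'
    exact (ha v).eq' hb (ho v) (ho' v) hg hg'
  have hinv : ∀ v, τ (τ v) = v := by
    intro v
    have h1 : Adm Γ ψ (τ v) (a v) := by
      have := (ha v).smul (o v)
      rwa [ho' v] at this
    rw [hτ' (τ v) (a v) h1 (o v) (ho v) (ho' v)]
    show ψ (o v) (ψ (o v) v) = v
    rw [← mulv]
    apply ha v
    · rw [map_mul, ho v]; rfl
    · show (o v) ((o v) (a v)) = a v
      rw [ho' v, ho' v]
  have hadj : ∀ u v, Γ.Adj (τ u) (τ v) ↔ Γ.Adj u v := by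
    intro u v
    obtain ⟨h, h1, h2, h3⟩ := exists_odd (a u) (a v)
    rw [hτ' u (a u) (ha u) h h1 h2, hτ' v (a v) (ha v) h h1 h3]
    exact (ψ h).map_rel_iff
  let T : Γ ≃g Γ := ⟨Function.Involutive.toPerm τ hinv, by
    intro u v
    exact hadj u v⟩
  have hT : ∀ v, T v = τ v := fun v => rfl
  have hcomm : ∀ s : S, ∀ v, τ (ψ s v) = ψ s (τ v) := by
    intro s v
    have h1 := (ha v).smul s
    rw [hτ' _ _ h1 (s * o v * s⁻¹) (by simp [ho v]) (by
      show s ((o v) (s⁻¹ (s (a v)))) = s (a v)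
      simp [ho' v])]
    rw [← mulv]
    have e : s * o v * s⁻¹ * s = s * o v := by group
    rw [e, mulv]
  have ht : ψ.symm T = 1 := by
    apply central
    intro s
    apply ψ.injective
    rw [map_mul, map_mul, MulEquiv.apply_symm_apply]
    ext v
    show T (ψ s v) = ψ s (T v)
    rw [hT, hT, hcomm]
  have hT1 : T = 1 := by simpa using ht
  have hfix : ∀ v, ∀ s : S, s (a v) = a v → ψ s v = v := by
    intro v s hs
    rcases Int.units_eq_one_or (Perm.sign s) with h | h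
    · exact ha v s h hs
    · rw [← hτ' v (a v) (ha v) s h hs, ← hT, hT1]; rfl
  -- two points avoided
  have himg : (B.image a).card ≤ 5 := hcard ▸ Finset.card_image_le
  have hcompl : 1 < ((B.image a)ᶜ).card := by
    rw [Finset.card_compl]
    have : Fintype.card P = 7 := rfl
    rw [this]
    omega
  obtain ⟨x, hx, y, hy, hxy⟩ := Finset.one_lt_card.mp hcompl
  rw [Finset.mem_compl, Finset.mem_image] at hx hy
  have h5 := hB (ψ (swap x y)) (by
    intro v hv
    apply hfix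
    apply swap_apply_of_ne_of_ne
    · intro h; exact hx ⟨v, hv, h⟩
    · intro h; exact hy ⟨v, hv, h⟩)
  have h6 : ψ (swap x y) = 1 := by
    ext v; exact h5 v
  have h7 : swap x y = 1 := by simpa using h6
  exact hxy (swap_eq_one_iff.mp h7)

end

end Q20.DetGap
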